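import Pool.Agent.TH893.PC.Main

/-!
# The Liouville function at the values of `f + h` for almost all constant terms `h` of size `N ^ (d - 1)`

The input is the theorem of Matomaki, Radziwill and Tao on exponential sums with the Liouville function in almost all
short intervals, in the form of `Pool.Agent.TH823.MRS` (helper823), which rests on the starting files
(`Pool.Agent.H376R2`, `Pool.Agent.H970R2`, `Pool.Agent.H807R2`, `Pool.Agent.H373R2` and others). The windows
`f(n) + (M, M + H]` move slowly with `n`; differencing `d - 1` times in `n` (van der Corput) leaves a progression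
of bounded step and length.

From Mathlib: `ArithmeticFunction.cardFactors n`: the number of the prime factors of `n` with multiplicity;
`ArithmeticFunction.moebius`: the Moebius function; `Polynomial.eval x f`: the value `f(x)`; `Polynomial.natDegree`:
the degree; `Finset.Ioc Y X`: the integers `n` with `Y < n ≤ X`; `Finset.Icc 1 H`: the integers from `1` to `H`.
-/

set_option autoImplicit false

namespace Pool.Agent.Results.MP_648c71_nt.ConstantTerms

open Finset Polynomial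

/-- The Liouville function on the integers, `λ(-m) = λ(m)` and `λ(0) = 0`, with complex values. -/
noncomputable def lam (m : ℤ) : ℂ := if m = 0 then 0 else (-1 : ℂ) ^ ArithmeticFunction.cardFactors m.natAbs

/-- The Moebius function on the integers, `μ(-m) = μ(m)` and `μ(0) = 0`, with complex values. -/
noncomputable def mob (m : ℤ) : ℂ := ((ArithmeticFunction.moebius m.natAbs : ℤ) : ℂ)

/-- `e(t) = exp(2 π i t)` -/
noncomputable def e (t : ℝ) : ℂ := Complex.exp (2 * Real.pi * Complex.I * t)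

/-- The sum of `e(g(n)) F(f(n) + h)` over the `n` in `(Y, X]` with `n ≡ a` modulo `q`. -/
noncomputable def S (F : ℤ → ℂ) (f : ℤ[X]) (g : ℝ[X]) (h : ℤ) (q a Y X : ℕ) : ℂ :=
  ∑ n ∈ (Ioc Y X).filter (fun n => n ≡ a [MOD q]), e (g.eval (n : ℝ)) * F (f.eval (n : ℤ) + h)

open Classical in
/-- The number of the `i` in `{1, ..., H}` with the property `E`. -/
noncomputable def num (H : ℕ) (E : ℕ → Prop) : ℝ := (((Icc 1 H).filter E).card : ℝ)

open Pool.Agent.TH893.PC
open Pool.Agent.H807R2.Dav (ee norm_ee ee_add ee_int ee_pow ee_zero)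
open Pool.Agent.H373R2.T7 (exI liR liR_norm)
open Pool.Agent.TH823.MRS (liR_E mu_E mu_le)

lemma lam_le (m : ℤ) : ‖lam m‖ ≤ 1 := by
  unfold lam
  split_ifs
  · simp
  · rw [norm_pow, norm_neg, norm_one, one_pow]

lemma mob_le (m : ℤ) : ‖mob m‖ ≤ 1 := mu_le _

lemma lam_base : Base lam := by
  have h1 : lam = fun m => exI liR m + exI liR (-m) := by
    funext m
    unfold lam exI liR
    rcases lt_trichotomy m 0 with h | h | h
    · rw [if_neg h.ne, if_neg (by omega), if_pos (by omega), zero_add]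
      congr 2
      omega
    · rw [if_pos h, if_neg (by omega), if_neg (by omega), add_zero]
    · rw [if_neg h.ne', if_pos (by omega), if_neg (by omega), add_zero]
      congr 2
      omega
  rw [h1]
  exact (base_exI liR_norm liR_E).add (base_exI liR_norm liR_E).neg

lemma mob_base : Base mob := by
  have h1 : mob = fun m => exI (fun n => ((ArithmeticFunction.moebius n : ℤ) : ℂ)) m +
      exI (fun n => ((ArithmeticFunction.moebius n : ℤ) : ℂ)) (-m) := by
    funext m
    unfold mob exI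
    rcases lt_trichotomy m 0 with h | h | h
    · rw [if_neg (by omega), if_pos (by omega), zero_add]
      congr 3
      omega
    · rw [if_neg (by omega), if_neg (by omega), add_zero, h]
      simp
    · rw [if_pos (by omega), if_neg (by omega), add_zero]
      congr 3
      omega
  rw [h1]
  exact (base_exI mu_le mu_E).add (base_exI mu_le mu_E).neg

/-- the phases with an additional linear term -/
noncomputable def tw (g : ℝ[X]) (q b : ℕ) : ℝ[X] := g + C ((b : ℝ) / q) * X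

lemma tw_deg {g : ℝ[X]} {d : ℕ} (hd : 1 ≤ d) (hg : g.natDegree ≤ d) (q b : ℕ) : (tw g q b).natDegree ≤ d := by
  unfold tw
  refine (natDegree_add_le _ _).trans (max_le hg ?_)
  exact ((natDegree_C_mul_le _ _).trans natDegree_X_le).trans hd

/-- the progressions -/
lemma S_le (F : ℤ → ℂ) (f : ℤ[X]) (g : ℝ[X]) (M : ℤ) (i : ℕ) {q : ℕ} (hq : 1 ≤ q) (a : ℕ) {Y X : ℕ} (hYX : Y ≤ X) {u : ℝ}
    (h : ∀ b < q, ‖SS F f (tw g q b) M i X - SS F f (tw g q b) M i Y‖ ≤ u) : ‖S F f g (M + i) q a Y X‖ ≤ u := by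
  have hq0 : (0 : ℝ) < q := by exact_mod_cast hq
  have e0 : ∀ (g' : ℝ[X]), SS F f g' M i X - SS F f g' M i Y =
      ∑ n ∈ Ioc Y X, ee (g'.eval ((n : ℤ) : ℝ)) * F (f.eval (n : ℤ) + M + (i : ℤ)) := by
    intro g'
    unfold SS
    have e0 : ∀ Z : ℕ, Icc 1 Z = Ioc 0 Z := fun Z => rfl
    rw [e0, e0, ← sum_Ioc_consecutive _ (Nat.zero_le Y) hYX]
    ring
  have hdvd : ∀ n : ℕ, q ∣ n + a * (q - 1) ↔ n ≡ a [MOD q] := by
    intro n
    obtain ⟨r, rfl⟩ : ∃ r, q = r + 1 := ⟨q - 1, by omega⟩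
    rw [Nat.add_sub_cancel]
    have h1 : n + a * r ≡ 0 [MOD (r + 1)] ↔ n ≡ a [MOD (r + 1)] := by
      have h2 : a + a * r ≡ 0 [MOD (r + 1)] := by
        rw [Nat.modEq_zero_iff_dvd]
        exact ⟨a, by ring⟩
      constructor
      · intro h3
        exact Nat.ModEq.add_right_cancel' (a * r) (h3.trans h2.symm)
      · intro h3
        exact (Nat.ModEq.add_right (a * r) h3).trans h2
    rw [← h1, Nat.modEq_zero_iff_dvd]
  have key : (q : ℂ) * S F f g (M + i) q a Y X = ∑ b ∈ range q, ee (((a * (q - 1) : ℕ) : ℝ) * ((b : ℝ) / q)) *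
      (SS F f (tw g q b) M i X - SS F f (tw g q b) M i Y) := by
    simp only [e0, mul_sum]
    rw [sum_comm]
    unfold S
    rw [sum_filter, mul_sum]
    refine sum_congr rfl fun n _ => ?_
    have h1 : ∀ b ∈ range q, ee (((a * (q - 1) : ℕ) : ℝ) * ((b : ℝ) / q)) * (ee ((tw g q b).eval ((n : ℤ) : ℝ)) *
        F (f.eval (n : ℤ) + M + (i : ℤ))) =
        ee (((n + a * (q - 1) : ℕ) : ℝ) * ((b : ℝ) / q)) * (ee (g.eval (n : ℝ)) * F (f.eval (n : ℤ) + M + (i : ℤ))) := by
      intro b _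
      have h2 : (tw g q b).eval ((n : ℤ) : ℝ) = g.eval (n : ℝ) + (b : ℝ) / q * n := by
        unfold tw
        simp
      rw [h2, ← mul_assoc, ← mul_assoc, ← ee_add, ← ee_add]
      congr 2
      push_cast
      ring
    rw [sum_congr rfl h1, ← sum_mul, detect hq]
    by_cases h2 : n ≡ a [MOD q]
    · rw [if_pos h2, if_pos ((hdvd n).2 h2), ← add_assoc]
      rfl
    · rw [if_neg h2, if_neg (fun h3 => h2 ((hdvd n).1 h3))]
      simp
  have h3 : (q : ℝ) * ‖S F f g (M + i) q a Y X‖ ≤ q * u := by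
    have h4 : (q : ℝ) * ‖S F f g (M + i) q a Y X‖ = ‖(q : ℂ) * S F f g (M + i) q a Y X‖ := by
      rw [norm_mul, Complex.norm_natCast]
    rw [h4, key]
    refine (norm_sum_le _ _).trans ?_
    have h5 : ∀ b ∈ range q, ‖ee (((a * (q - 1) : ℕ) : ℝ) * ((b : ℝ) / q)) *
      (SS F f (tw g q b) M i X - SS F f (tw g q b) M i Y)‖ ≤ u := by
      intro b hb
      rw [norm_mul, norm_ee, one_mul]
      exact h b (mem_range.1 hb)
    refine (sum_le_sum h5).trans (le_of_eq ?_)
    rw [sum_const, card_range, nsmul_eq_mul]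
  exact le_of_mul_le_mul_left h3 hq0

lemma one_function {F : ℤ → ℂ} (hF : ∀ m, ‖F m‖ ≤ 1) (hB : Base F) (f : ℤ[X]) (hf : 1 ≤ f.natDegree) (B q₀ : ℕ) (ε : ℝ) (hε : 0 < ε) :
    ∃ C N₀ : ℕ, ∀ N H : ℕ, N₀ ≤ N → C * N ^ (f.natDegree - 1) ≤ H → H ≤ B * N ^ f.natDegree →
      ∀ M : ℤ, |M| ≤ B * N ^ f.natDegree → ∀ g : ℝ[X], g.natDegree ≤ f.natDegree →
        num H (fun i => ¬ ∀ q a Y X : ℕ, 1 ≤ q → q ≤ q₀ → Y ≤ X → X ≤ N → ‖S F f g (M + i) q a Y X‖ ≤ ε * N) ≤ ε * H := by
  classical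
  obtain ⟨ε', hε'⟩ : ∃ ε' : ℝ, ε' = ε / ((q₀ : ℝ) + 1) ^ 2 := ⟨_, rfl⟩
  have hε'0 : 0 < ε' := by rw [hε']; positivity
  have hε'1 : ε' ≤ ε := by
    rw [hε']
    apply div_le_self hε.le
    have : (0 : ℝ) ≤ q₀ := Nat.cast_nonneg _
    nlinarith
  obtain ⟨C, N₀, h⟩ := allint hF hB B hf hε'0
  refine ⟨C, N₀, fun N H hN hH hHB M hM g hg => ?_⟩
  obtain ⟨bad, hbad⟩ : ∃ bad : ℕ × ℕ → Finset ℕ, bad = fun p => (Icc 1 H).filter (fun i => ¬ ∀ Y X : ℕ, Y ≤ X → X ≤ N →
    ‖SS F f (tw g p.1 p.2) M i X - SS F f (tw g p.1 p.2) M i Y‖ ≤ ε' * N) := ⟨_, rfl⟩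
  have hcard : ∀ p ∈ range (q₀ + 1) ×ˢ range (q₀ + 1), ((bad p).card : ℝ) ≤ ε' * H := by
    intro p _
    have h1 := h N hN H hH hHB M hM (tw g p.1 p.2) (tw_deg hf hg _ _)
    rw [hbad]
    convert h1 using 3
  have hsub : (Icc 1 H).filter (fun i : ℕ => ¬ ∀ q a Y X : ℕ, 1 ≤ q → q ≤ q₀ → Y ≤ X → X ≤ N → ‖S F f g (M + i) q a Y X‖ ≤ ε * N) ⊆
      (range (q₀ + 1) ×ˢ range (q₀ + 1)).biUnion bad := by
    intro i hi
    rw [mem_filter] at hi
    by_contra hcon
    apply hi.2
    intro q a Y X hq hq0 hYX hX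
    apply S_le F f g M i hq a hYX
    intro b hb
    by_contra hlt
    apply hcon
    rw [mem_biUnion]
    refine ⟨(q, b), mem_product.2 ⟨mem_range.2 (by omega), mem_range.2 (by omega)⟩, ?_⟩
    rw [hbad]
    refine mem_filter.2 ⟨hi.1, fun hall => hlt ?_⟩
    refine (hall Y X hYX hX).trans ?_
    exact mul_le_mul_of_nonneg_right hε'1 (Nat.cast_nonneg _)
  unfold num
  have h2 := (card_le_card hsub).trans card_biUnion_le
  have h3 : (((Icc 1 H).filter (fun i : ℕ => ¬ ∀ q a Y X : ℕ, 1 ≤ q → q ≤ q₀ → Y ≤ X → X ≤ N → ‖S F f g (M + i) q a Y X‖ ≤ ε * N)).card : ℝ) ≤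
      ∑ p ∈ range (q₀ + 1) ×ˢ range (q₀ + 1), ((bad p).card : ℝ) := by exact_mod_cast h2
  have h4 := h3.trans (sum_le_sum hcard)
  rw [sum_const, card_product, card_range, nsmul_eq_mul] at h4
  refine le_trans (le_of_eq ?_) (h4.trans (le_of_eq ?_))
  · congr!
  · rw [hε']
    push_cast
    field_simp

/-- Let `f` be a nonconstant polynomial with integer coefficients, of degree `d`, and let `B`, `q₀` and `ε > 0` be
fixed. There is a constant `C` such that for all large `N`, all `H` with `C N ^ (d - 1) ≤ H ≤ B N ^ d`, all integers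
`M` with `|M| ≤ B N ^ d` and all real polynomials `g` of degree at most `d`: for all the integers `h = M + i` in
`(M, M + H]` with at most `ε H` exceptions the sum of `e(g(n)) λ(f(n) + h)` over the `n` in `(Y, X]` with
`n ≡ a` modulo `q` is at most `ε N`, for all the progressions modulo `q ≤ q₀` and all the intervals
`(Y, X] ⊆ (0, N]` simultaneously; in particular (`g = 0`) this holds for the sums of `λ(f(n) + h)`. The same
holds for the Moebius function. -/
theorem result (f : ℤ[X]) (hf : 1 ≤ f.natDegree) (B q₀ : ℕ) (ε : ℝ) (hε : 0 < ε) :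
    ∃ C N₀ : ℕ, ∀ N H : ℕ, N₀ ≤ N → C * N ^ (f.natDegree - 1) ≤ H → H ≤ B * N ^ f.natDegree →
      ∀ M : ℤ, |M| ≤ B * N ^ f.natDegree → ∀ g : ℝ[X], g.natDegree ≤ f.natDegree →
        num H (fun i => ¬ ∀ q a Y X : ℕ, 1 ≤ q → q ≤ q₀ → Y ≤ X → X ≤ N →
          ‖S lam f g (M + i) q a Y X‖ ≤ ε * N) ≤ ε * H ∧
        num H (fun i => ¬ ∀ q a Y X : ℕ, 1 ≤ q → q ≤ q₀ → Y ≤ X → X ≤ N →
          ‖S mob f g (M + i) q a Y X‖ ≤ ε * N) ≤ ε * H := by
  obtain ⟨C₁, N₁, h1⟩ := one_function lam_le lam_base f hf B q₀ ε hε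
  obtain ⟨C₂, N₂, h2⟩ := one_function mob_le mob_base f hf B q₀ ε hε
  refine ⟨max C₁ C₂, max N₁ N₂, fun N H hN hH hHB M hM g hg => ⟨?_, ?_⟩⟩
  · exact h1 N H ((le_max_left _ _).trans hN) ((Nat.mul_le_mul_right _ (le_max_left _ _)).trans hH) hHB M hM g hg
  · exact h2 N H ((le_max_right _ _).trans hN) ((Nat.mul_le_mul_right _ (le_max_right _ _)).trans hH) hHB M hM g hg

end Pool.Agent.Results.MP_648c71_nt.ConstantTerms
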