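import Pool.Agent.TH872.Sq.W19

set_option autoImplicit false

namespace Pool.Agent.Results.MP_648c71_nt.DigitRestrictedSystems
open Finset
open Pool.Agent.TH872.Sq (qv dg ld SD main_ev ev liF nice_liF ev_li_prod uniformize)

/-- the integers below `b ^ k` whose `i`-th digit in base `b` belongs to `D i` for all `i < k` -/
def S (b : ℕ) (D : ℕ → Finset ℕ) (k : ℕ) : Finset ℕ := (range (b ^ k)).filter (fun n : ℕ => ∀ i < k, n / b ^ i % b ∈ D i)

/-- the Liouville function on the integers -/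
noncomputable def lam (m : ℤ) : ℝ := if m = 0 then 0 else (-1) ^ ArithmeticFunction.cardFactors m.natAbs

/-- the polynomial `∏ (κ j x ^ 2 + β j x + c j)` -/
noncomputable def pol {r : ℕ} (κ β c : Fin r → ℤ) : Polynomial ℤ :=
  ∏ j, (Polynomial.C (κ j) * Polynomial.X ^ 2 + Polynomial.C (β j) * Polynomial.X + Polynomial.C (c j))

/-- the degree of `κ x ^ 2 + β x` -/
def deg (κ : ℤ) : ℕ := if κ = 0 then 1 else 2

/-- the sum of `λ (f n)` over the `n < Y` in `S` congruent to `a` modulo `q` -/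
noncomputable def Sum (b : ℕ) (D : ℕ → Finset ℕ) (k : ℕ) (f : Polynomial ℤ) (Y q a : ℕ) : ℝ :=
  ∑ n ∈ (S b D k).filter (fun n => n < Y ∧ n % q = a), lam (f.eval (n : ℤ))

open scoped Classical in
/-- **The Liouville function at products of linear and quadratic polynomials, over integers with restricted digits in initial
segments and arithmetic progressions.** -/
theorem result (b : ℕ) (hb : 2 ≤ b) (r : ℕ) (hr : 1 ≤ r) (κ β : Fin r → ℤ) (hκ : ∀ j, κ j ≠ 0 ∨ β j ≠ 0) (F A U : ℕ) :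
    ∃ K₀ : ℕ, ∀ k : ℕ, K₀ ≤ k → ∀ D : ℕ → Finset ℕ, (∀ i < k, D i ⊆ range b ∧ 2 ≤ (D i).card) →
    ∀ σ : Fin r → ℤ, (∀ j, σ j = 1 ∨ σ j = -1) →
    ∀ X : Fin r → ℕ, (∀ j, b ^ (deg (κ j) * k) ≤ X j ∧ X j ≤ F * b ^ (deg (κ j) * k)) →
    (((Fintype.piFinset (fun j : Fin r => Icc 1 (X j))).filter (fun c : Fin r → ℕ =>
      ∃ Y q a : ℕ, Y ≤ b ^ k ∧ 1 ≤ q ∧ q ≤ k ^ A ∧
        ((S b D k).card : ℝ) / (k : ℝ) ^ U < |Sum b D k (pol κ β (fun j => σ j * (c j : ℤ))) Y q a|)).card : ℝ) ≤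
      (∏ j, (X j : ℝ)) / (k : ℝ) ^ U := by
  classical
  have hld : ∀ j, ld (κ j) (β j) ≠ 0 := by
    intro j
    unfold ld
    split_ifs with h
    · exact (hκ j).resolve_left (fun h' => h' h)
    · exact h
  obtain ⟨W, K1, h0⟩ := uniformize b hb A U
  obtain ⟨K₀, h1⟩ := main_ev b hb r hr κ β hld (fun _ => liF) (fun _ => nice_liF) F W
  refine ⟨K₀ + K1, fun k hk D hD σ hσ X hX => ?_⟩
  have hval : ∀ (c : Fin r → ℕ) (n : ℕ), ∏ j, ev liF (qv (κ j) (β j) n + σ j * (c j : ℤ)) = lam ((pol κ β (fun j => σ j * (c j : ℤ))).eval (n : ℤ)) := by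
    intro c n
    rw [← ev_li_prod]
    unfold pol
    rw [Polynomial.eval_prod]
    simp only [Polynomial.eval_add, Polynomial.eval_mul, Polynomial.eval_pow, Polynomial.eval_C, Polynomial.eval_X]
    rfl
  apply h0 k (by omega) D hD (Fin r → ℕ) (Fintype.piFinset (fun j : Fin r => Icc 1 (X j)))
    (fun c n => lam ((pol κ β (fun j => σ j * (c j : ℤ))).eval (n : ℤ))) _ (∏ j, (X j : ℝ)) (prod_nonneg fun j _ => Nat.cast_nonneg _) _ _
  · intro c _ hc
    exact hc
  · intro c n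
    unfold lam
    split_ifs
    · rw [abs_zero]; exact zero_le_one
    · rw [abs_pow, abs_neg, abs_one, one_pow]
  · intro G hG
    have h2 := h1 k (by omega) D hD σ hσ X hX G hG
    simp only [hval] at h2
    exact h2

end Pool.Agent.Results.MP_648c71_nt.DigitRestrictedSystems
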