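import Pool.Agent.TH892.ChowBox

/-!
Chowla's conjecture for 100 percent of all integer polynomials of degree `j` and height at most
`H`, simultaneously for all lengths `H^ε ≤ K ≤ H / (log H)^B` and all arithmetic progressions of
modulus at most `(log H)^U`.
-/

set_option autoImplicit false

namespace Pool.Agent.Results.MP_648c71_nt.FullHeightBox

open Finset Polynomial Filter

/-- the polynomial with the coefficients `c 0, ..., c j` -/
noncomputable def pol {j : ℕ} (c : Fin (j + 1) → ℤ) : ℤ[X] :=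
  ∑ i : Fin (j + 1), C (c i) * X ^ (i : ℕ)

/-- all coefficient vectors with `|c i| ≤ H` for all `i` and `c j ≥ 1`, that is, all polynomials of
degree `j` and height at most `H` with positive leading coefficient -/
noncomputable def box (j H : ℕ) : Finset (Fin (j + 1) → ℤ) :=
  Fintype.piFinset (fun i => if (i : ℕ) = j then Icc 1 (H : ℤ) else Icc (-(H : ℤ)) H)

/-- the Liouville function, `λ(m) = (-1)^Ω(|m|)` for `m ≠ 0` and `λ(0) = 0` -/
noncomputable def liouville (m : ℤ) : ℝ :=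
  if m = 0 then 0 else (-1) ^ (ArithmeticFunction.cardFactors m.natAbs)

/-- the sum of `λ(f(n))` over `1 ≤ n ≤ K`, `n ≡ a (mod q)` -/
noncomputable def progSum (f : ℤ[X]) (K q : ℕ) (a : ℤ) : ℝ :=
  ∑ n ∈ (Icc 1 K).filter (fun n : ℕ => (q : ℤ) ∣ (n : ℤ) - a), liouville (f.eval (n : ℤ))

lemma progSum_eq {j : ℕ} (c : Fin (j + 1) → ℤ) (K q : ℕ) (hq : 1 ≤ q) (a : ℤ) :
    ((progSum (pol c) K q a : ℝ) : ℂ) =
      Pool.Agent.TH892.WW Pool.Agent.TH892.lamN c (q, (a % (q : ℤ)).toNat) K := by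
  unfold progSum Pool.Agent.TH892.WW
  have hq0 : (0:ℤ) < q := by exact_mod_cast hq
  have hfil : (Icc 1 K).filter (fun n : ℕ => (q : ℤ) ∣ (n : ℤ) - a) =
      (Icc 1 K).filter (fun k => k % q = (a % (q : ℤ)).toNat) := by
    apply filter_congr
    intro n _
    have h1 : 0 ≤ a % (q : ℤ) := Int.emod_nonneg _ (by omega)
    have h2 : (n % q = (a % (q : ℤ)).toNat) ↔ ((n : ℤ) % (q : ℤ) = a % (q : ℤ)) := by
      constructor
      · intro h
        have h3 : ((n % q : ℕ) : ℤ) = ((a % (q : ℤ)).toNat : ℤ) := by exact_mod_cast h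
        rw [Int.toNat_of_nonneg h1] at h3
        rw [← h3]
        push_cast
        rfl
      · intro h
        have h3 : ((n % q : ℕ) : ℤ) = ((a % (q : ℤ)).toNat : ℤ) := by
          rw [Int.toNat_of_nonneg h1]
          push_cast
          exact h
        exact_mod_cast h3
    rw [h2]
    constructor
    · intro h
      exact Int.emod_eq_emod_iff_emod_sub_eq_zero.mpr (Int.emod_eq_zero_of_dvd h)
    · intro h
      exact Int.dvd_of_emod_eq_zero (Int.emod_eq_emod_iff_emod_sub_eq_zero.mp h)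
  rw [hfil]
  push_cast
  refine sum_congr rfl fun n _ => ?_
  unfold liouville Pool.Agent.TH892.lamN
  have hp : (Pool.Agent.TH892.pol c) = pol c := rfl
  rw [hp]
  by_cases h0 : (pol c).eval (n : ℤ) = 0
  · rw [if_pos h0, if_pos (by rw [h0]; rfl)]
    simp
  · rw [if_neg h0, if_neg (by simpa using h0)]
    push_cast
    rfl

open Classical in
/-- **Chowla's conjecture with probability one, for arguments nearly up to the height.** Let
`j ≥ 1`, `ε > 0` and `U` be given and let `B` and `H` be large in terms of these.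
(1) For every `K` with `H^ε ≤ K ≤ H / (log H)^B` and every residue class `a` modulo
`q ≤ (log H)^U` the mean square of `∑ λ(f(n))` over `n ≤ K`, `n ≡ a (mod q)`, over all polynomials
`f` of degree `j` and height at most `H` with positive leading coefficient is at most
`K^2 / (log H)^U`.
(2) All these `f` with at most `(number of these f) / (log H)^U` exceptions satisfy
`|∑ λ(f(n))| ≤ K / (log H)^U`, the sum over `n ≤ K`, `n ≡ a (mod q)`, for ALL `K` with
`H^ε ≤ K ≤ H / (log H)^B`, all `q ≤ (log H)^U` and all `a` simultaneously. -/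
theorem result (j : ℕ) (hj : 1 ≤ j) (ε : ℝ) (hε : 0 < ε) (U : ℕ) : ∃ B H0 : ℕ,
    ∀ H : ℕ, H0 ≤ H →
    (∀ K : ℕ, (H : ℝ) ^ ε ≤ K → (K : ℝ) * Real.log H ^ B ≤ H →
      ∀ (q : ℕ) (a : ℤ), 1 ≤ q → (q : ℝ) ≤ Real.log H ^ U →
      ∑ c ∈ box j H, (progSum (pol c) K q a) ^ 2 ≤
      ((box j H).card : ℝ) * (K : ℝ) ^ 2 / Real.log H ^ U) ∧
    (((box j H).filter (fun c : Fin (j + 1) → ℤ =>
      ∃ K : ℕ, (H : ℝ) ^ ε ≤ K ∧ (K : ℝ) * Real.log H ^ B ≤ H ∧
        ∃ (q : ℕ) (a : ℤ), 1 ≤ q ∧ (q : ℝ) ≤ Real.log H ^ U ∧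
          K / Real.log H ^ U < |progSum (pol c) K q a|)).card : ℝ) ≤
      ((box j H).card : ℝ) / Real.log H ^ U := by
  obtain ⟨B1, H1, h1⟩ := Pool.Agent.TH892.box_small j hj ε hε U _ Pool.Agent.TH892.lamN_le
    Pool.Agent.TH892.lamN_FH
  obtain ⟨B2, H2, h2⟩ := Pool.Agent.TH892.box_exc j hj ε hε U _ Pool.Agent.TH892.lamN_le
    Pool.Agent.TH892.lamN_FH
  obtain ⟨H3, hH3⟩ := eventually_atTop.mp (Pool.Agent.H442R2.EHI.evt_log_ge 1)
  refine ⟨max B1 B2, max (max H1 H2) H3, fun H hH => ?_⟩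
  have hL1 : 1 ≤ Real.log H := hH3 H ((le_max_right _ _).trans hH)
  have hHH1 : H1 ≤ H := (le_max_left _ _).trans ((le_max_left _ _).trans hH)
  have hHH2 : H2 ≤ H := (le_max_right _ _).trans ((le_max_left _ _).trans hH)
  have hmon : ∀ B' : ℕ, B' ≤ max B1 B2 → ∀ K : ℕ, (K : ℝ) * Real.log H ^ (max B1 B2) ≤ H →
      (K : ℝ) * Real.log H ^ B' ≤ H := by
    intro B' hB' K hK
    refine le_trans ?_ hK
    exact mul_le_mul_of_nonneg_left (pow_le_pow_right₀ hL1 hB') (Nat.cast_nonneg _)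
  have hnorm : ∀ (c : Fin (j + 1) → ℤ) (K q : ℕ) (a : ℤ), 1 ≤ q →
      ‖Pool.Agent.TH892.WW Pool.Agent.TH892.lamN c (q, (a % (q : ℤ)).toNat) K‖ =
        |progSum (pol c) K q a| := by
    intro c K q a hq
    rw [← progSum_eq c K q hq a, Complex.norm_real, Real.norm_eq_abs]
  constructor
  · intro K hK1 hK2 q a hq hqL
    have h3 := h1 H hHH1 K hK1 (hmon B1 (le_max_left _ _) K hK2) (q, (a % (q : ℤ)).toNat) hq hqL
    refine le_trans (le_of_eq (sum_congr rfl fun c _ => ?_)) h3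
    rw [hnorm c K q a hq, sq_abs]
  · refine h2 H hHH2 _ ?_
    rintro c hc ⟨K, hK1, hK2, q, a, hq, hqL, hK3⟩
    refine ⟨K, hK1, hmon B2 (le_max_right _ _) K hK2, (q, (a % (q : ℤ)).toNat), hq, hqL, ?_, ?_⟩
    · have hq0 : (0:ℤ) < q := by exact_mod_cast hq
      have h5 := Int.emod_lt_of_pos a hq0
      have h6 : 0 ≤ a % (q : ℤ) := Int.emod_nonneg _ (by omega)
      simp only
      omega
    · rw [hnorm c K q a hq]
      exact hK3

end Pool.Agent.Results.MP_648c71_nt.FullHeightBox
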