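import Pool.Agent.TH573.SM.Main

/-!
# Chowla's conjecture for the values of all integer polynomials, for almost every modification of
the Liouville function on one extremely sparse set of primes

There is a set `Q` of primes, so sparse that the sum of the reciprocals of its members up to `y` is
`O((log* y)^2)` (`log*` is the iterated logarithm), with the following property. Let `g` be any
completely multiplicative function with values `1` and `-1`, for instance the Liouville function,
and choose the signs at the primes of `Q` at random. Almost surely the resulting completely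
multiplicative function `f`, which agrees with `g` at all primes outside `Q`, satisfies the
conclusion of Chowla's conjecture for ALL integer polynomials that are not a constant times a
square, in all arithmetic progressions, and even with the weights of any given sequence of bounded
functions.

Method: the moment method for thick sets of primes of helper220 (`Pool.Agent.H220M.asWeight`,
starting files), which treats one polynomial whose primes with a simple root are thick in `Q`;
Mertens' theorem for the roots of an irreducible polynomial (`Pool.Agent.H474R2.GE.mertens_rho`,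
starting files, from the pole of the Dedekind zeta function) shows that this holds for all
polynomials simultaneously if `Q` consists of the primes in the blocks `(T, T^(2^i)]`, `T` the
`i`-th iterated power of two.
-/

set_option autoImplicit false

namespace Pool.Agent.Results.MP_648c71_nt.SparseModifications

open Polynomial Finset Filter MeasureTheory Pool.Agent.H220M
open Pool.Agent.TH573.SM (tower)

open Classical in
theorem result : ∃ Q : Set ℕ, (∀ q ∈ Q, q.Prime) ∧
    (∃ K : ℝ, ∀ n : ℕ, ∑ q ∈ (Icc 1 (tower n)).filter (fun q => q ∈ Q), (1 : ℝ) / q ≤ K * n ^ 2) ∧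
    ∀ g : ℕ →*₀ ℤ, (∀ p : ℕ, p.Prime → g p = 1 ∨ g p = -1) →
    ∀ v : ℕ → ℕ → ℝ, (∀ s n, |v s n| ≤ 1) →
    ∀ᵐ ω ∂coins, ∃! f : ℕ →*₀ ℤ, IsModif g Q ω f ∧
      ∀ F : ℤ[X], (¬ ∃ (c : ℤ) (G : ℤ[X]), F = C c * G ^ 2) → ∀ s a b : ℕ,
        Tendsto (fun x : ℕ => (∑ n ∈ (Icc 1 x).filter (fun n => n ≡ a [MOD b]), v s n *
          ((f (F.eval (n : ℤ)).natAbs : ℤ) : ℝ)) / x) atTop (nhds 0) := by
  refine ⟨Pool.Agent.TH573.SM.sparse, fun q hq => hq.1, ?_, fun g hg v hv =>
    Pool.Agent.TH573.SM.main g hg v hv⟩
  obtain ⟨K, hK⟩ := Pool.Agent.TH573.SM.sparse_sum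
  refine ⟨K, fun n => ?_⟩
  refine le_trans (Finset.sum_le_sum_of_subset_of_nonneg ?_ fun q _ _ => by positivity) (hK n)
  intro q hq
  rw [mem_filter, mem_Icc] at hq ⊢
  obtain ⟨h1, hp, i, h2, h3⟩ := hq
  refine ⟨h1, i, ?_, hp, h2, h3⟩
  by_contra h
  have := Pool.Agent.TH573.SM.tower_strictMono.monotone (not_lt.1 h)
  omega

end Pool.Agent.Results.MP_648c71_nt.SparseModifications
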